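import Pool.Agent.Helper42.FR.Stmts

/-! # Row HH (MP_3569d7_al): the local permutation -/

set_option autoImplicit false

namespace Pool.Agent.Helper76.FR

open Pool.Agent.Helper42.FR

namespace HH76

/-- the first set -/
abbrev A0 (q k : ℕ) : Type := {y : Fin q × Fin q // (y.1 : ℕ) < k}

/-- the small set -/
abbrev B0 (q k : ℕ) : Type := {a : A0 q k // (a.1.2 : ℕ) < k}

/-- the rest -/
abbrev R0 (q k : ℕ) : Type := A0 q k ⊕ (A0 q k ⊕ (A0 q k ⊕ (B0 q k ⊕ Unit)))

/-- forward -/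
def fw (q k : ℕ) : A0 q k ⊕ R0 q k → A0 q k ⊕ R0 q k
  | .inl a => .inr (.inl a)
  | .inr (.inl a) => .inr (.inr (.inl a))
  | .inr (.inr (.inl a)) => .inr (.inr (.inr (.inl a)))
  | .inr (.inr (.inr (.inl a))) =>
    if h : (a.1.2 : ℕ) < k then .inr (.inr (.inr (.inr (.inl ⟨a, h⟩)))) else .inl a
  | .inr (.inr (.inr (.inr (.inl b)))) => .inl b.1
  | .inr (.inr (.inr (.inr (.inr u)))) => .inr (.inr (.inr (.inr (.inr u))))

/-- backward -/
def bw (q k : ℕ) : A0 q k ⊕ R0 q k → A0 q k ⊕ R0 q k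
  | .inl a => if h : (a.1.2 : ℕ) < k then .inr (.inr (.inr (.inr (.inl ⟨a, h⟩))))
      else .inr (.inr (.inr (.inl a)))
  | .inr (.inl a) => .inl a
  | .inr (.inr (.inl a)) => .inr (.inl a)
  | .inr (.inr (.inr (.inl a))) => .inr (.inr (.inl a))
  | .inr (.inr (.inr (.inr (.inl b)))) => .inr (.inr (.inr (.inl b.1)))
  | .inr (.inr (.inr (.inr (.inr u)))) => .inr (.inr (.inr (.inr (.inr u))))

theorem bw_fw (q k : ℕ) (x : A0 q k ⊕ R0 q k) : bw q k (fw q k x) = x := by
  rcases x with a | a | a | a | b | u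
  · rfl
  · rfl
  · rfl
  · by_cases h : (a.1.2 : ℕ) < k
    · simp [fw, bw, h]
    · simp [fw, bw, h]
  · have := b.2
    simp [fw, bw, this]
  · rfl

theorem fw_bw (q k : ℕ) (x : A0 q k ⊕ R0 q k) : fw q k (bw q k x) = x := by
  rcases x with a | a | a | a | b | u
  · by_cases h : (a.1.2 : ℕ) < k
    · simp [fw, bw, h]
    · simp [fw, bw, h]
  · rfl
  · rfl
  · rfl
  · have := b.2
    simp [fw, bw, this]
  · rfl

/-- the permutation of the model -/
def pm (q k : ℕ) : Equiv.Perm (A0 q k ⊕ R0 q k) :=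
  ⟨fw q k, bw q k, bw_fw q k, fw_bw q k⟩

/-- classes -/
def cls (q k : ℕ) : A0 q k ⊕ R0 q k → ℕ
  | .inl _ => 0
  | .inr (.inl _) => 1
  | .inr (.inr (.inl _)) => 2
  | .inr (.inr (.inr (.inl _))) => 3
  | .inr (.inr (.inr (.inr (.inl _)))) => 4
  | .inr (.inr (.inr (.inr (.inr _)))) => 5

theorem cls1 (q k : ℕ) (x : A0 q k ⊕ R0 q k) : cls q k (fw q k x) = 1 ↔ cls q k x = 0 := by
  rcases x with a | a | a | a | b | u <;> simp only [fw] <;> try simp [cls]
  split_ifs <;> simp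

theorem cls2 (q k : ℕ) (x : A0 q k ⊕ R0 q k) : cls q k (fw q k x) = 2 ↔ cls q k x = 1 := by
  rcases x with a | a | a | a | b | u <;> simp only [fw] <;> try simp [cls]
  split_ifs <;> simp

theorem cls3 (q k : ℕ) (x : A0 q k ⊕ R0 q k) : cls q k (fw q k x) = 3 ↔ cls q k x = 2 := by
  rcases x with a | a | a | a | b | u <;> simp only [fw] <;> try simp [cls]
  split_ifs <;> simp

theorem cls4 (q k : ℕ) (x : A0 q k ⊕ R0 q k) :
    cls q k (fw q k (fw q k (fw q k (fw q k x)))) = 4 ↔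
      ∃ a : A0 q k, x = .inl a ∧ (a.1.2 : ℕ) < k := by
  rcases x with a | a | a | a | b | u
  · by_cases h : (a.1.2 : ℕ) < k
    · simp [fw, cls, h]
    · simp [fw, cls, h]
  · by_cases h : (a.1.2 : ℕ) < k
    · simp [fw, cls, h]
    · simp [fw, cls, h]
  · by_cases h : (a.1.2 : ℕ) < k
    · simp [fw, cls, h]
    · simp [fw, cls, h]
  · by_cases h : (a.1.2 : ℕ) < k
    · simp [fw, cls, h]
    · simp [fw, cls, h]
  · simp [fw, cls]
  · simp [fw, cls]

theorem card_lt (q k : ℕ) (hk : k ≤ q) : Fintype.card {i : Fin q // (i : ℕ) < k} = k := by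
  have e : {i : Fin q // (i : ℕ) < k} ≃ Fin k :=
    ⟨fun i => ⟨i.1, i.2⟩, fun j => ⟨⟨j, j.2.trans_le hk⟩, j.2⟩, fun i => rfl, fun j => rfl⟩
  rw [Fintype.card_congr e, Fintype.card_fin]

theorem card_A0 (q k : ℕ) (hk : k ≤ q) : Fintype.card (A0 q k) = k * q := by
  have e : A0 q k ≃ {i : Fin q // (i : ℕ) < k} × Fin q :=
    ⟨fun y => (⟨y.1.1, y.2⟩, y.1.2), fun z => ⟨(z.1.1, z.2), z.1.2⟩, fun y => rfl, fun z => rfl⟩
  rw [Fintype.card_congr e, Fintype.card_prod, card_lt q k hk, Fintype.card_fin]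

theorem card_B0 (q k : ℕ) (hk : k ≤ q) : Fintype.card (B0 q k) = k * k := by
  have e : B0 q k ≃ {i : Fin q // (i : ℕ) < k} × {i : Fin q // (i : ℕ) < k} :=
    ⟨fun y => (⟨y.1.1.1, y.1.2⟩, ⟨y.1.1.2, y.2⟩), fun z => ⟨⟨(z.1.1, z.2.1), z.1.2⟩, z.2.2⟩,
      fun y => rfl, fun z => rfl⟩
  rw [Fintype.card_congr e, Fintype.card_prod, card_lt q k hk]

end HH76

open HH76 in
/-- row HH -/
theorem st_HH : ST_HH := by
  classical
  intro q k hk hq
  have hcard : Fintype.card {y : Fin q × Fin q // ¬ (y.1 : ℕ) < k} = Fintype.card (R0 q k) := by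
    have h1 := Fintype.card_subtype_compl (fun y : Fin q × Fin q => (y.1 : ℕ) < k)
    rw [h1, Fintype.card_prod, Fintype.card_fin]
    have h2 : Fintype.card {y : Fin q × Fin q // (y.1 : ℕ) < k} = k * q := card_A0 q k hk
    rw [h2]
    simp only [R0, Fintype.card_sum, Fintype.card_unit, card_A0 q k hk, card_B0 q k hk]
    have h3 : 4 * k * q = 4 * (k * q) := by ring
    omega
  let e0 : {y : Fin q × Fin q // ¬ (y.1 : ℕ) < k} ≃ R0 q k := Fintype.equivOfCardEq hcard
  let ε : Fin q × Fin q ≃ A0 q k ⊕ R0 q k :=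
    (Equiv.sumCompl (fun y : Fin q × Fin q => (y.1 : ℕ) < k)).symm.trans
      (Equiv.sumCongr (Equiv.refl _) e0)
  have hε1 : ∀ (y : Fin q × Fin q) (h : (y.1 : ℕ) < k), ε y = .inl ⟨y, h⟩ := by
    intro y h
    simp only [ε, Equiv.trans_apply]
    rw [Equiv.sumCompl_symm_apply_of_pos (p := fun y : Fin q × Fin q => (y.1 : ℕ) < k) h]
    rfl
  have hε2 : ∀ (y : Fin q × Fin q) (h : ¬ (y.1 : ℕ) < k), ε y = .inr (e0 ⟨y, h⟩) := by
    intro y h
    simp only [ε, Equiv.trans_apply]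
    rw [Equiv.sumCompl_symm_apply_of_neg (p := fun y : Fin q × Fin q => (y.1 : ℕ) < k) h]
    rfl
  have hcls0 : ∀ y : Fin q × Fin q, cls q k (ε y) = 0 ↔ (y.1 : ℕ) < k := by
    intro y
    by_cases h : (y.1 : ℕ) < k
    · rw [hε1 y h]
      simp [cls, h]
    · rw [hε2 y h]
      simp only [h, iff_false]
      rcases e0 ⟨y, h⟩ with a | a | a | b | u <;> simp [cls]
  let H : Equiv.Perm (Fin q × Fin q) := (ε.trans (pm q k)).trans ε.symm
  have hH : ∀ y, ε (H y) = fw q k (ε y) := by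
    intro y
    simp only [H, Equiv.trans_apply, Equiv.apply_symm_apply]
    rfl
  refine ⟨H, fun i => Finset.univ.filter (fun y => cls q k (ε y) = (i : ℕ)), ?_, ?_, ?_, ?_, ?_,
    ?_, ?_⟩
  · intro y
    simp only [Finset.mem_filter, Finset.mem_univ, true_and]
    exact hcls0 y
  · intro y
    simp only [Finset.mem_filter, Finset.mem_univ, true_and, hH]
    exact cls1 q k _
  · intro y
    simp only [Finset.mem_filter, Finset.mem_univ, true_and, hH]
    exact cls2 q k _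
  · intro y
    simp only [Finset.mem_filter, Finset.mem_univ, true_and, hH]
    exact cls3 q k _
  · intro y
    simp only [Finset.mem_filter, Finset.mem_univ, true_and, hH]
    refine (cls4 q k _).trans ?_
    constructor
    · rintro ⟨a, ha, h2⟩
      have h1 : (y.1 : ℕ) < k := by
        rw [← hcls0, ha]
        rfl
      rw [hε1 y h1] at ha
      have := Sum.inl.inj ha
      rw [← this] at h2
      exact ⟨h1, h2⟩
    · rintro ⟨h1, h2⟩
      exact ⟨⟨y, h1⟩, hε1 y h1, h2⟩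
  · intro i j hij
    rw [Finset.disjoint_filter]
    intro y _ h1 h2
    exact hij (Fin.ext (h1.symm.trans h2))
  · apply Finset.card_le_one.2
    have h5 : ∀ y : Fin q × Fin q, y ∈ Finset.univ \ (Finset.univ.biUnion
        (fun i : Fin 5 => Finset.univ.filter (fun y => cls q k (ε y) = (i : ℕ)))) →
        ε y = .inr (.inr (.inr (.inr (.inr ())))) := by
      intro y hy
      rw [Finset.mem_sdiff, Finset.mem_biUnion] at hy
      have h6 : ∀ i : Fin 5, cls q k (ε y) ≠ (i : ℕ) := by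
        intro i hi
        exact hy.2 ⟨i, Finset.mem_univ _, by simp [hi]⟩
      rcases hx : ε y with a | a | a | a | b | u
      · exact absurd (by rw [hx]; rfl) (h6 0)
      · exact absurd (by rw [hx]; rfl) (h6 1)
      · exact absurd (by rw [hx]; rfl) (h6 2)
      · exact absurd (by rw [hx]; rfl) (h6 3)
      · exact absurd (by rw [hx]; rfl) (h6 4)
      · rfl
    intro a ha b hb
    exact ε.injective ((h5 a ha).trans (h5 b hb).symm)

end Pool.Agent.Helper76.FR
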